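import Mathlib

set_option autoImplicit false

namespace Pool.Agent.Results.MP_12bcff_ag.Example
open MvPolynomial

/-- The map on geometric points given by a pair of polynomials over `F`. -/
noncomputable def Tm {F : Type} [Field F] (f : Fin 2 → MvPolynomial (Fin 2) F)
    (p : Fin 2 → AlgebraicClosure F) : Fin 2 → AlgebraicClosure F := fun i => aeval p (f i)

/-- Geometric points of the closed subvariety cut out by a set of polynomials over `F`. -/
def V {F : Type} [Field F] (S : Set (MvPolynomial (Fin 2) F)) : Set (Fin 2 → AlgebraicClosure F) :=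
  {p | ∀ g ∈ S, aeval p g = 0}

abbrev F2 := ZMod 2
abbrev K := AlgebraicClosure F2
noncomputable def f0 : Fin 2 → MvPolynomial (Fin 2) F2 := ![X 0 + X 0 * X 1, X 0 * X 1]

lemma T0 (p : Fin 2 → K) : Tm f0 p 0 = p 0 + p 0 * p 1 := by simp [Tm, f0]
lemma T1 (p : Fin 2 → K) : Tm f0 p 1 = p 0 * p 1 := by simp [Tm, f0]

lemma kill {p : Fin 2 → K} (h : p 0 = 0) : Tm f0 p = 0 := by
  funext i; fin_cases i
  · simp [T0, h]
  · simp [T1, h]

lemma inj {p q : Fin 2 → K} (h : Tm f0 p = Tm f0 q) (hp : p 0 ≠ 0) : p = q := by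
  have h0 := congrFun h 0
  have h1 := congrFun h 1
  rw [T0, T0] at h0
  rw [T1, T1] at h1
  have e0 : p 0 = q 0 := by linear_combination h0 - h1
  rw [← e0] at h1
  funext i; fin_cases i
  · exact e0
  · exact mul_left_cancel₀ hp h1

lemma hit (t : K) : ∃ k, 1 ≤ k ∧ (Tm f0)^[k] ![t, t] = 0 := by
  by_contra hc
  push Not at hc
  have hx : ∀ k, ((Tm f0)^[k] ![t, t]) 0 ≠ 0 := fun k h =>
    hc (k + 1) (by omega) (by rw [Function.iterate_succ_apply', kill h])
  let L := IntermediateField.adjoin F2 {t}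
  have : FiniteDimensional F2 L := IntermediateField.adjoin.finiteDimensional (Algebra.IsIntegral.isIntegral t)
  have : Finite L := Module.finite_of_finite F2
  have hL : ∀ k i, ((Tm f0)^[k] ![t, t]) i ∈ L := by
    intro k
    induction k with
    | zero => intro i; fin_cases i <;> exact IntermediateField.mem_adjoin_simple_self _ _
    | succ k ih =>
      intro i
      rw [Function.iterate_succ_apply']
      fin_cases i
      · exact (T0 _).symm ▸ L.add_mem (ih 0) (L.mul_mem (ih 0) (ih 1))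
      · exact (T1 _).symm ▸ L.mul_mem (ih 0) (ih 1)
  have key : ∀ a b, a < b → (Tm f0)^[a] ![t, t] ≠ (Tm f0)^[b] ![t, t] := by
    intro a
    induction a with
    | zero =>
      intro b hb h
      obtain ⟨c, rfl⟩ := Nat.exists_eq_succ_of_ne_zero hb.ne'
      rw [Function.iterate_succ_apply'] at h
      have h0 := congrFun h 0
      have h1 := congrFun h 1
      rw [T0] at h0
      rw [T1] at h1
      apply hx c
      simp at h0 h1
      linear_combination h1 - h0
    | succ a ih =>
      intro b hb h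
      obtain ⟨c, rfl⟩ := Nat.exists_eq_succ_of_ne_zero (show b ≠ 0 by omega)
      rw [Function.iterate_succ_apply', Function.iterate_succ_apply'] at h
      exact ih c (by omega) (inj h (hx a))
  obtain ⟨a, b, hab, h⟩ := Finite.exists_ne_map_eq_of_infinite
    (fun k : ℕ => fun i : Fin 2 => (⟨_, hL k i⟩ : L))
  have h' : (Tm f0)^[a] ![t, t] = (Tm f0)^[b] ![t, t] :=
    funext fun i => congrArg Subtype.val (congrFun h i)
  rcases lt_or_gt_of_ne hab with h1 | h1
  · exact key a b h1 h'
  · exact key b a h1 h'.symm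

lemma param (k : ℕ) : ∃ a b : Polynomial K, a ≠ 0 ∧ b.eval 0 = 0 ∧
    ∀ t, ((Tm f0)^[k] ![t, t]) 0 = a.eval t ∧ ((Tm f0)^[k] ![t, t]) 1 = b.eval t := by
  induction k with
  | zero => exact ⟨.X, .X, Polynomial.X_ne_zero, by simp, fun t => by simp⟩
  | succ k ih =>
    obtain ⟨a, b, ha, hb, h⟩ := ih
    refine ⟨a * (1 + b), a * b, mul_ne_zero ha fun h0 => ?_, by simp [hb], fun t => ?_⟩
    · have := congrArg (Polynomial.eval 0) h0
      simp [hb] at this
    · rw [Function.iterate_succ_apply', T0, T1, (h t).1, (h t).2]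
      simp [mul_add]

theorem result : ∃ (F : Type) (_ : Field F) (_ : Finite F) (f : Fin 2 → MvPolynomial (Fin 2) F)
    (S : Set (MvPolynomial (Fin 2) F)), (V S).Nonempty ∧
    (∃ P, Tm f P = P ∧ ∀ Q ∈ V S, ∃ k, 1 ≤ k ∧ (Tm f)^[k] Q = P) ∧
    ¬ ∃ P, Tm f P = P ∧ ∃ k, 1 ≤ k ∧ (Tm f)^[k] '' V S = {P} := by
  have mem : ∀ t : K, ![t, t] ∈ V ({X 0 - X 1} : Set (MvPolynomial (Fin 2) F2)) := by
    rintro t g rfl; simp
  refine ⟨F2, inferInstance, inferInstance, f0, {X 0 - X 1}, ⟨_, mem 0⟩, ⟨0, kill rfl, fun Q hQ => ?_⟩, ?_⟩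
  · have h := hQ _ rfl
    simp only [map_sub, aeval_X] at h
    have : Q = ![Q 0, Q 0] := by
      funext i; fin_cases i
      · rfl
      · exact (sub_eq_zero.1 h).symm
    rw [this]; exact hit _
  · rintro ⟨P, -, k, -, h⟩
    obtain ⟨a, b, ha, -, hab⟩ := param k
    have e : ∀ t : K, (Tm f0)^[k] ![t, t] = P := fun t =>
      (h ▸ Set.mem_image_of_mem _ (mem t) : _ ∈ ({P} : Set _))
    have e0 : (Tm f0)^[k] ![0, 0] = 0 := by
      have : (![0, 0] : Fin 2 → K) = 0 := by funext i; fin_cases i <;> rfl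
      rw [this]; exact Function.iterate_fixed (kill rfl) k
    apply ha
    apply Polynomial.funext
    intro t
    rw [← (hab t).1, e t, ← e 0, e0]; simp

end Pool.Agent.Results.MP_12bcff_ag.Example
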